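import Pool.Agent.J4H79.PT.Cnt
import Pool.Agent.J4H79.PT.Cls

/-!
# The torsor form of the period conjecture for mixed Tate motives over the integers

In coordinates, a complex point of the torsor of periods of `MT(Z)` is a pair `(Φ, t)`: a series `Φ` in
noncommuting letters `0, 1, 2, ...` (the letter `k` has weight `2 k + 3`) which is group-like (its
coefficients multiply by the shuffle product), and a nonzero scalar `t`.  The comparison isomorphism is a
point with `t = 2 π i` whose coefficient at the letter `k` is `ζ (2 k + 3)`.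

A `K`-closed subset through the comparison point which is stable under `(x, y, z) ↦ x y⁻¹ z` is Zariski
dense in the directions of all the letters `k` with `ζ (2 k + 3) ∉ K + K (2 π i) ^ (2 k + 3)`.
-/

set_option autoImplicit false

namespace Pool.Agent.Results.MP_e54452_nt.TorsorForm

open Complex Pool.Agent.J4H79.PT

theorem result :
    (∀ K : Subfield ℂ, (∀ m : ℕ, 0 < m → (2 * Real.pi * I) ^ m ∉ K) →
      ∀ comp : Pt wt3, comp.t = 2 * Real.pi * I →
      (∀ k : ℕ, comp.ph [k] = riemannZeta (2 * k + 3 : ℕ)) →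
      -- density in the directions of the good letters
      (∀ X : Set (Pt wt3), KClosed K X → Heap X → comp ∈ X →
        ∀ f : MvPolynomial (Option (List ℕ)) ℂ,
          (∀ w : List ℕ, some w ∈ f.vars → ∀ k ∈ w, k ∈ Good K) →
          (∀ x ∈ X, MvPolynomial.eval (coord x) f = 0) →
          ∀ p : Pt wt3, MvPolynomial.eval (coord p) f = 0) ∧
      -- classes rational for both structures, in the good letters
      (∀ (d : ℕ) (R : Rep K d),
        (∀ a b, ∀ w : List ℕ, some w ∈ (R.F a b).vars → ∀ k ∈ w, k ∈ Good K) →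
        ∀ v w : Fin d → K, (R.ρ comp).mulVec (fun i => (v i : ℂ)) = (fun i => (w i : ℂ)) →
          v = w ∧ ∀ p, (R.ρ p).mulVec (fun i => (v i : ℂ)) = fun i => (v i : ℂ)) ∧
      -- the torsor form of the period conjecture
      ((∀ X : Set (Pt wt3), KClosed K X → Heap X → comp ∈ X → X = Set.univ) ↔
        Good K = Set.univ) ∧
      ((∀ (d : ℕ) (R : Rep K d) (v w : Fin d → K),
        (R.ρ comp).mulVec (fun i => (v i : ℂ)) = (fun i => (w i : ℂ)) →
          v = w ∧ ∀ p, (R.ρ p).mulVec (fun i => (v i : ℂ)) = fun i => (v i : ℂ)) ↔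
        Good K = Set.univ) ∧
      -- the period conjecture itself
      ((∀ f : MvPolynomial (Option (List ℕ)) K, MvPolynomial.aeval (coord comp) f = 0 →
        ∀ p : Pt wt3, MvPolynomial.aeval (coord p) f = 0) ↔
        Heap (cl K comp) ∧ Good K = Set.univ)) ∧
    -- the number of good letters of a real number field
    (∀ K : IntermediateField ℚ ℝ, FiniteDimensional ℚ K →
      ∀ m : ℕ, 0 < m → (2 * Real.pi * I) ^ m ∉ cx K) ∧
    (∃ c : ℝ, 0 < c ∧ ∃ s0 : ℕ, ∀ s ≥ s0, ∀ K : IntermediateField ℚ ℝ, FiniteDimensional ℚ K →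
      (Module.finrank ℚ K : ℝ) ≤ c * Real.log (Real.log s) →
      c * Real.sqrt (s * Real.log (Real.log s) / (Module.finrank ℚ K * Real.log s)) ≤
        (Set.ncard {k : ℕ | 2 * k + 3 ≤ s ∧ k ∈ Good (cx K)} : ℝ)) := by
  refine ⟨fun K hpi comp ht hz => ⟨?_, ?_, ?_, ?_, ?_⟩, ?_, count⟩
  · intro X hK hX h0 f hf hv p
    exact dense_good K hpi comp ht hz X hK hX h0 f hf hv p
  · intro d R hN v w hvw
    exact classes K hpi comp ht hz d R.ρ R.m R.F R.hF hN v w hvw
  · exact criterion K hpi comp ht hz
  · exact classes_iff K hpi comp ht hz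
  · exact period_iff K hpi comp ht hz
  · intro K _ m hm
    exact pi_pow_notMem K m hm

end Pool.Agent.Results.MP_e54452_nt.TorsorForm
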