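import Pool.Agent.J4H79.ZO.Fin

/-!
# A zero-one law for the period map of mixed Tate motives over the integers

In coordinates, a complex point of the torsor of periods of `MT(Z)` is a pair `(Φ, t)`: a group-like series
`Φ` in noncommuting letters `0, 1, 2, ...` (the letter `k` has weight `2 k + 3`) and a nonzero scalar `t`; the
motivic periods have the basis `t ^ a w` (`a` an integer, `w` a word), and the period map at the comparison
point (`t = 2 π i`, `Φ [k] = ζ (2 k + 3)`) sends it to `(2 π i) ^ a Φ (w)`.

For every point and every set `Λ` of letters the following are equivalent: the period map is injective on the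
motivic periods over `Λ`; it is almost injective: the dimension of the space of the periods of weight at most
`N` is at least `1 - ε` times the motivic dimension for infinitely many `N`; the relations of height at most
`N ^ A` between the periods of weight at most `N` have density zero along a sequence of `N`, for every `A`.
One relation of weight at most `M` and height `H` gives relations of height at most `H N ^ (M / 3)` of density
at least `3 ^ (-M)` in all the spaces with `N ≥ M`.
-/

set_option autoImplicit false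

namespace Pool.Agent.Results.MP_e54452_nt.ZeroOneLaw

open Filter Pool.Agent.J4H79.PT Pool.Agent.J4H79.ZO

theorem result (comp : Pt wt3) (Λ : Set ℕ) :
    List.TFAE [
      LinearIndepOn ℚ (fun x : ℤ × List ℕ => comp.t ^ x.1 * comp.ph x.2) {x | ∀ k ∈ x.2, k ∈ Λ},
      ∀ ε : ℝ, 0 < ε → ∃ᶠ N : ℕ in atTop, (1 - ε) * (E Λ N : ℝ) ≤ (D comp Λ N : ℝ),
      ∀ ε : ℝ, 0 < ε → ∀ A : ℕ, ∃ᶠ N : ℕ in atTop,
        (R comp Λ N (N ^ A) : ℝ) ≤ ε * (E Λ N : ℝ)] ∧
    ∀ M H : ℕ, (∃ c ∈ Rel comp Λ M H, c ≠ 0) → ∀ N : ℕ, M ≤ N →
      E Λ (N - M) ≤ R comp Λ N (H * N ^ (M / 3)) ∧ D comp Λ N + E Λ (N - M) ≤ E Λ N ∧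
        E Λ N ≤ 3 ^ M * E Λ (N - M) :=
  ⟨zero_one comp Λ, fun M _ ⟨_, hc, hc0⟩ N hN =>
    ⟨R_ge comp hN le_rfl hc hc0, D_le comp hN hc hc0, E_le Λ M N hN⟩⟩

end Pool.Agent.Results.MP_e54452_nt.ZeroOneLaw
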